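import Pool.Agent.Helper34.CAR.GoalsB

/-!
# Project CAR (MP_d97caa_an), packet SEPS: separability of `C₀(ℝ, E)` and of the unitization
-/

set_option autoImplicit false

open scoped ComplexOrder ZeroAtInfty

namespace Pool.Agent.Helper30.CAR

open Filter Topology

section

variable {E : Type} [NormedAddCommGroup E]

/-- the extension to the one-point compactification -/
noncomputable def ext0 (f : C₀(ℝ, E)) : C(OnePoint ℝ, E) where
  toFun z := z.elim 0 f
  continuous_toFun := by
    rw [OnePoint.continuous_iff]
    refine ⟨?_, f.continuous⟩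
    rw [coclosedCompact_eq_cocompact]
    exact f.zero_at_infty'

theorem ext0_coe (f : C₀(ℝ, E)) (x : ℝ) : ext0 f (x : OnePoint ℝ) = f x := rfl

theorem ext0_infty (f : C₀(ℝ, E)) : ext0 f OnePoint.infty = 0 := rfl

theorem isometry_ext0 : Isometry (ext0 : C₀(ℝ, E) → C(OnePoint ℝ, E)) := by
  refine Isometry.of_dist_eq fun f g => ?_
  apply le_antisymm
  · rw [ContinuousMap.dist_le dist_nonneg]
    intro z
    induction z using OnePoint.rec with
    | infty =>
      rw [ext0_infty, ext0_infty, dist_self]
      exact dist_nonneg
    | coe x =>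
      rw [ext0_coe, ext0_coe]
      exact BoundedContinuousFunction.dist_coe_le_dist (f := f.toBCF) (g := g.toBCF) x
  · change dist f.toBCF g.toBCF ≤ _
    rw [BoundedContinuousFunction.dist_le dist_nonneg]
    intro x
    exact ContinuousMap.dist_apply_le_dist (f := ext0 f) (g := ext0 g) (x : OnePoint ℝ)

instance : SecondCountableTopology (OnePoint ℝ) :=
  (onePointEquivSphereOfFinrankEq (ι := Fin 2) (V := ℝ) (by simp)).secondCountableTopology

theorem sep_c0 [TopologicalSpace.SeparableSpace E] : TopologicalSpace.SeparableSpace C₀(ℝ, E) := by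
  have h1 : SecondCountableTopology E := UniformSpace.secondCountable_of_separable E
  have h2 : SecondCountableTopology C(OnePoint ℝ, E) := inferInstance
  have h3 : SecondCountableTopology C₀(ℝ, E) := 
    (Isometry.isUniformInducing (isometry_ext0 (E := E))).isInducing.secondCountableTopology
  infer_instance

end

theorem seps : Pool.Agent.Helper34.CAR.S_SEPS := by
  intro E _ _
  refine ⟨sep_c0, ?_⟩
  exact (Unitization.uniformEquivProd (𝕜 := ℂ) (A := E)).symm.surjective.denseRange.separableSpace
    (Unitization.uniformEquivProd (𝕜 := ℂ) (A := E)).symm.continuous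

end Pool.Agent.Helper30.CAR
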