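import Pool.Agent.Helper34.CAR.GoalsB
import Pool.Agent.Helper30.CAR.SEPS

/-!
# Project CAR (MP_d97caa_an), packet UNC: unitizations
-/

set_option autoImplicit false

open scoped ComplexOrder ZeroAtInfty

namespace Pool.Agent.Helper30.CAR

open Pool.Agent.Helper39.Uct Pool.Agent.Helper34.CAR

theorem isTypeI_complex : IsTypeI ℂ := by
  intro A' _ π hπ _
  have hcomm : ∀ x y : A', x * y = y * x := by
    intro x y
    obtain ⟨x, rfl⟩ := hπ x
    obtain ⟨y, rfl⟩ := hπ y
    rw [← map_mul, ← map_mul, mul_comm]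
  obtain ⟨a, ha⟩ := exists_ne (0 : A')
  refine ⟨star a * a, IsSelfAdjoint.star_mul_self a, ?_, fun x y => hcomm _ _⟩
  intro h
  exact ha (CStarRing.star_mul_self_eq_zero_iff a |>.1 h)

/-- the character of the unitization -/
noncomputable def chi (X : Type) [NonUnitalCStarAlgebra X] : Unitization ℂ X →⋆ₙₐ[ℂ] ℂ where
  toFun := fun x => x.fst
  map_smul' := fun a x => by simp
  map_zero' := rfl
  map_add' := fun x y => rfl
  map_mul' := fun x y => by simp
  map_star' := fun x => by simp

theorem chi_apply (X : Type) [NonUnitalCStarAlgebra X] (x : Unitization ℂ X) : chi X x = x.fst := rfl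

theorem unc : S_UNC := by
  intro 𝒞 h𝒞 X _ _
  have hsep : TopologicalSpace.SeparableSpace (Unitization ℂ X) := (seps X).2
  have hinj : Function.Injective (Unitization.inrNonUnitalStarAlgHom ℂ X) := Unitization.inr_injective
  have hsurj : Function.Surjective (chi X) := by
    intro z
    exact ⟨Unitization.inl z, by rw [chi_apply, Unitization.fst_inl]⟩
  have hex : ∀ a : Unitization ℂ X, chi X a = 0 ↔
      a ∈ Set.range (Unitization.inrNonUnitalStarAlgHom ℂ X) := by
    intro a
    rw [chi_apply]
    constructor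
    · intro h
      refine ⟨a.snd, ?_⟩
      apply Unitization.ext
      · simp [h]
      · simp
    · rintro ⟨x, rfl⟩
      simp
  have hC : 𝒞 ℂ := h𝒞.typeI ℂ isTypeI_complex
  constructor
  · intro h
    exact h𝒞.ext X (Unitization ℂ X) ℂ (Unitization.inrNonUnitalStarAlgHom ℂ X) (chi X) hinj hsurj hex h hC
  · intro h
    exact h𝒞.ideal X (Unitization ℂ X) ℂ (Unitization.inrNonUnitalStarAlgHom ℂ X) (chi X) hinj hsurj hex h hC

end Pool.Agent.Helper30.CAR
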